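import Pool.Agent.Y607.RT.Plane

/-!
# Which circles are good for a rectangular table

`MP_c2c9d7_co`, Q1, has a negative answer, and for circles the answer is complete up to tables
similar to the squares and to the `1 × √3` rectangle: a circle is good for an `a × b` table only
when the table can be placed with its centre inside the circle and none of its vertices inside.
-/

namespace Pool.Agent.Results.MP_c2c9d7_co.GoodCircles

open Pool.Agent.Y607.RT

/-- The boundary of `K` is good for the rectangular table with side lengths `a` and `b`: for every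
continuous `f ≥ 0` on the plane that vanishes outside `K`, some level set of `f` contains the four
vertices of a congruent copy (by an isometry `g`) of the table whose centre lies inside. -/
def Good (K : Set (EuclideanSpace ℝ (Fin 2))) (a b : ℝ) : Prop :=
  ∀ f : EuclideanSpace ℝ (Fin 2) → ℝ, Continuous f → (∀ x, 0 ≤ f x) → (∀ x, x ∉ K → f x = 0) →
    ∃ (g : EuclideanSpace ℝ (Fin 2) ≃ᵢ EuclideanSpace ℝ (Fin 2)) (lam : ℝ), g 0 ∈ interior K ∧
      f (g !₂[a / 2, b / 2]) = lam ∧ f (g !₂[-(a / 2), b / 2]) = lam ∧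
      f (g !₂[-(a / 2), -(b / 2)]) = lam ∧ f (g !₂[a / 2, -(b / 2)]) = lam

/-- The table can be placed with its centre in the interior of `K` and none of its vertices
there. -/
def VerticesOut (K : Set (EuclideanSpace ℝ (Fin 2))) (a b : ℝ) : Prop :=
  ∃ g : EuclideanSpace ℝ (Fin 2) ≃ᵢ EuclideanSpace ℝ (Fin 2), g 0 ∈ interior K ∧
    g !₂[a / 2, b / 2] ∉ interior K ∧ g !₂[-(a / 2), b / 2] ∉ interior K ∧
    g !₂[-(a / 2), -(b / 2)] ∉ interior K ∧ g !₂[a / 2, -(b / 2)] ∉ interior K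

theorem int_ball (ρ : ℝ) (hρ : 0 < ρ) :
    interior (Metric.closedBall (0 : EuclideanSpace ℝ (Fin 2)) ρ) = Metric.ball 0 ρ :=
  interior_closedBall _ hρ.ne'

theorem out_of (a b ρ : ℝ) (ha : 0 < a) (hb : 0 < b) (hρ : 0 < ρ)
    (h : ρ ≤ √(a ^ 2 + b ^ 2) / 2 ∨ ρ < (a ^ 2 + b ^ 2) / (4 * min a b)) :
    VerticesOut (Metric.closedBall 0 ρ) a b := by
  have hS : 0 < a ^ 2 + b ^ 2 := by positivity
  -- it suffices to find a translation
  have suff : ∀ v : EuclideanSpace ℝ (Fin 2), ‖v‖ < ρ →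
      ρ ^ 2 ≤ (a / 2 + v 0) ^ 2 + (b / 2 + v 1) ^ 2 →
      ρ ^ 2 ≤ (-(a / 2) + v 0) ^ 2 + (b / 2 + v 1) ^ 2 →
      ρ ^ 2 ≤ (-(a / 2) + v 0) ^ 2 + (-(b / 2) + v 1) ^ 2 →
      ρ ^ 2 ≤ (a / 2 + v 0) ^ 2 + (-(b / 2) + v 1) ^ 2 →
      VerticesOut (Metric.closedBall 0 ρ) a b := by
    intro v hv h1 h2 h3 h4
    refine ⟨IsometryEquiv.addRight v, ?_, ?_⟩
    · rw [int_ball ρ hρ, Metric.mem_ball, dist_zero_right]
      simpa using hv
    have key : ∀ x y : ℝ, ρ ^ 2 ≤ (x + v 0) ^ 2 + (y + v 1) ^ 2 →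
        (IsometryEquiv.addRight v !₂[x, y] : EuclideanSpace ℝ (Fin 2)) ∉
          interior (Metric.closedBall (0 : EuclideanSpace ℝ (Fin 2)) ρ) := by
      intro x y hxy
      rw [int_ball ρ hρ, Metric.mem_ball, dist_zero_right, not_lt, EuclideanSpace.norm_eq,
        Fin.sum_univ_two]
      refine Real.le_sqrt_of_sq_le ?_
      simpa using hxy
    exact ⟨key _ _ h1, key _ _ h2, key _ _ h3, key _ _ h4⟩
  by_cases h1 : ρ ≤ √(a ^ 2 + b ^ 2) / 2
  · have h2 : ρ ^ 2 ≤ (a ^ 2 + b ^ 2) / 4 := by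
      have := pow_le_pow_left₀ hρ.le h1 2
      rw [div_pow, Real.sq_sqrt hS.le] at this
      linarith
    refine suff 0 (by simpa using hρ) ?_ ?_ ?_ ?_ <;> simp <;> linarith
  · have h := h.resolve_left h1
    have hm0 : 0 < min a b := lt_min ha hb
    obtain ⟨m, hm⟩ : ∃ m, m = min a b := ⟨_, rfl⟩
    rw [← hm] at h hm0
    rw [lt_div_iff₀ (by positivity)] at h
    obtain ⟨δ, hδ⟩ : ∃ δ, δ = min ρ (((a ^ 2 + b ^ 2) / 4 - ρ * m) / (2 * ρ)) := ⟨_, rfl⟩
    have hδ0 : 0 < δ := by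
      rw [hδ]; exact lt_min hρ (div_pos (by linarith) (by positivity))
    have hδ1 : δ ≤ ρ := by rw [hδ]; exact min_le_left _ _
    have hδ2 : 2 * ρ * δ ≤ (a ^ 2 + b ^ 2) / 4 - ρ * m := by
      have := min_le_right ρ (((a ^ 2 + b ^ 2) / 4 - ρ * m) / (2 * ρ))
      rw [← hδ, le_div_iff₀ (by positivity)] at this
      linarith
    obtain ⟨r, hr⟩ : ∃ r, r = ρ - δ := ⟨_, rfl⟩
    have hr0 : 0 ≤ r := by linarith
    have hr1 : r < ρ := by linarith
    have hmain : ρ ^ 2 ≤ r ^ 2 - r * m + (a ^ 2 + b ^ 2) / 4 := by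
      rw [hr]
      nlinarith [mul_pos hδ0 hm0, sq_nonneg δ]
    have hrm : 0 ≤ r * m := by positivity
    rcases le_total a b with hab | hab
    · have hma : m = a := by rw [hm]; exact min_eq_left hab
      rw [hma] at hmain hrm
      refine suff !₂[r, 0] ?_ ?_ ?_ ?_ ?_
      · rw [EuclideanSpace.norm_eq, Fin.sum_univ_two]
        simpa [Real.sqrt_sq hr0] using hr1
      all_goals simp; nlinarith
    · have hmb : m = b := by rw [hm]; exact min_eq_right hab
      rw [hmb] at hmain hrm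
      refine suff !₂[0, r] ?_ ?_ ?_ ?_ ?_
      · rw [EuclideanSpace.norm_eq, Fin.sum_univ_two]
        simpa [Real.sqrt_sq hr0] using hr1
      all_goals simp; nlinarith

theorem good_of (a b ρ : ℝ) (hρ : 0 < ρ) (h : VerticesOut (Metric.closedBall 0 ρ) a b) :
    Good (Metric.closedBall 0 ρ) a b := by
  obtain ⟨g, h0, h1, h2, h3, h4⟩ := h
  intro f hf _ hz
  have key : ∀ x, x ∉ interior (Metric.closedBall (0 : EuclideanSpace ℝ (Fin 2)) ρ) → f x = 0 := by
    intro x hx
    rw [int_ball ρ hρ, Metric.mem_ball, dist_zero_right, not_lt] at hx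
    exact zero_on hf hρ hz hx
  exact ⟨g, 0, h0, key _ h1, key _ h2, key _ h3, key _ h4⟩

theorem of_good (a b ρ : ℝ) (ha : 0 < a) (hb : 0 < b) (hab : a ≠ b) (h3 : a ^ 2 ≠ 3 * b ^ 2)
    (h3' : b ^ 2 ≠ 3 * a ^ 2) (hρ : 0 < ρ) (hg : Good (Metric.closedBall 0 ρ) a b) :
    ρ ≤ √(a ^ 2 + b ^ 2) / 2 ∨ ρ < (a ^ 2 + b ^ 2) / (4 * min a b) := by
  by_contra hcon
  push Not at hcon
  obtain ⟨f, fc, f0, fz, fm⟩ := bad a b ρ ha hb hab h3 h3' hcon.1 hcon.2
  obtain ⟨g, lam, hgi, h1, h2, h3, h4⟩ := hg f fc f0 (fun x hx => by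
    rw [Metric.mem_closedBall, dist_zero_right, not_le] at hx
    exact fz x hx.le)
  rw [int_ball ρ hρ, Metric.mem_ball, dist_zero_right] at hgi
  exact fm g lam hgi h1 h2 h3 h4

/-- (1) Not every convex Jordan curve is good for all rectangular tables. (2) Let `a ≠ b` and let
the ratio of the side lengths be different from `√3`. The circle of radius `ρ` is good for the
`a × b` table if and only if `ρ` is at most the circumradius of the table or smaller than
`(a² + b²) / (4 min(a, b))`, and this is so if and only if the table can be placed with its centre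
inside the circle and none of its vertices inside. -/
theorem result :
    (¬ ∀ K : Set (EuclideanSpace ℝ (Fin 2)), IsCompact K → Convex ℝ K → (interior K).Nonempty →
      ∀ a b : ℝ, 0 < a → 0 < b → Good K a b) ∧
    (∀ a b ρ : ℝ, 0 < a → 0 < b → a ≠ b → a ^ 2 ≠ 3 * b ^ 2 → b ^ 2 ≠ 3 * a ^ 2 → 0 < ρ →
      (Good (Metric.closedBall 0 ρ) a b ↔
        ρ ≤ √(a ^ 2 + b ^ 2) / 2 ∨ ρ < (a ^ 2 + b ^ 2) / (4 * min a b)) ∧
      (Good (Metric.closedBall 0 ρ) a b ↔ VerticesOut (Metric.closedBall 0 ρ) a b)) := by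
  refine ⟨fun hall => ?_, ?_⟩
  · have := of_good 1 2 2 (by norm_num) (by norm_num) (by norm_num) (by norm_num) (by norm_num)
      (by norm_num) (hall _ (isCompact_closedBall _ _) (convex_closedBall _ _) (by
        rw [int_ball 2 (by norm_num)]
        exact ⟨0, Metric.mem_ball_self (by norm_num)⟩) 1 2 (by norm_num) (by norm_num))
    rw [show min (1 : ℝ) 2 = 1 by norm_num, show (1 : ℝ) ^ 2 + 2 ^ 2 = 5 by norm_num] at this
    rcases this with h | h
    · have h5 : √5 < (3 : ℝ) := by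
        rw [Real.sqrt_lt' (by norm_num)]; norm_num
      linarith
    · norm_num at h
  · intro a b ρ ha hb hab h3 h3' hρ
    exact ⟨⟨of_good a b ρ ha hb hab h3 h3' hρ, fun h => good_of a b ρ hρ (out_of a b ρ ha hb hρ h)⟩,
      fun hg => out_of a b ρ ha hb hρ (of_good a b ρ ha hb hab h3 h3' hρ hg), good_of a b ρ hρ⟩

end Pool.Agent.Results.MP_c2c9d7_co.GoodCircles
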